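import Mathlib
import Pool.Agent.TH56.RC.Par
import Pool.Agent.TH905.PC.Dsg
import Pool.Agent.H634R3.WG.Lam

set_option autoImplicit false

/-!
# Real automorphisms of symmetric designs: cycle lengths
-/

namespace Pool.Agent.TH56.RD

open Finset MulAction Pool.Agent.H634R3.PPC Pool.Agent.TH56.RC
open Pool.Agent.TH905.PC (pairs Blk proj proj_inj blocks_inj)

/-- the cycles of length `ℓ ≥ 2` of the permutation of `X` given by `g` correspond to the orbits
of size `ℓ` -/
theorem count_eq {G : Type} [Group G] {X : Type} [Fintype X] [DecidableEq X] [MulAction G X] (g : G)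
    (σ : Equiv.Perm X) (hσ : ∀ x, σ x = g • x) {l : ℕ} (hl : 2 ≤ l)
    [DecidablePred (fun C : orbitRel.Quotient (Subgroup.zpowers g) X =>
      sz (Subgroup.zpowers g) C = l)] [Fintype (orbitRel.Quotient (Subgroup.zpowers g) X)] :
    σ.cycleType.count l = (univ.filter (fun C : orbitRel.Quotient (Subgroup.zpowers g) X =>
      sz (Subgroup.zpowers g) C = l)).card := by
  classical
  have hpow : ∀ (i : ℤ) (x : X), (σ ^ i) x = g ^ i • x := by
    have h1 : σ = MulAction.toPerm g := by
      ext x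
      rw [hσ, MulAction.toPerm_apply]
    intro i x
    rw [h1, ← MulAction.toPermHom_apply, ← map_zpow, MulAction.toPermHom_apply,
      MulAction.toPerm_apply]
  have hsc : ∀ x y : X, σ.SameCycle x y ↔ cls (Subgroup.zpowers g) y = cls (Subgroup.zpowers g) x := by
    intro x y
    rw [cls_eq]
    constructor
    · rintro ⟨i, hi⟩
      exact ⟨g ^ i, Subgroup.zpow_mem _ (Subgroup.mem_zpowers g) i, by rw [← hpow, hi]⟩
    · rintro ⟨k, hk, hkx⟩
      obtain ⟨i, rfl⟩ := Subgroup.mem_zpowers_iff.1 hk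
      exact ⟨i, by rw [hpow, hkx]⟩
  have hszc : ∀ x : X, sz (Subgroup.zpowers g) (cls (Subgroup.zpowers g) x) =
      (univ.filter (fun y => σ.SameCycle x y)).card := by
    intro x
    unfold sz
    congr 1
    ext y
    simp only [mem_filter, mem_univ, true_and, hsc]
  have hsupp : ∀ x : X, σ x ≠ x → (σ.cycleOf x).support = univ.filter (fun y => σ.SameCycle x y) := by
    intro x hx
    ext y
    rw [Equiv.Perm.mem_support_cycleOf_iff, mem_filter, Equiv.Perm.mem_support]
    simp [hx]
  have hfix : ∀ x : X, σ x = x → (univ.filter (fun y => σ.SameCycle x y)).card = 1 := by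
    intro x hx
    rw [card_eq_one]
    refine ⟨x, ?_⟩
    ext y
    rw [mem_filter, mem_singleton]
    constructor
    · rintro ⟨_, i, hi⟩
      rw [← hi, Equiv.Perm.zpow_apply_eq_self_of_apply_eq_self hx]
    · rintro rfl
      exact ⟨mem_univ _, Equiv.Perm.SameCycle.refl _ _⟩
  rw [Equiv.Perm.cycleType_def, Multiset.count_map, ← Finset.filter_val, Finset.card_val]
  symm
  have hout : ∀ C : orbitRel.Quotient (Subgroup.zpowers g) X,
      cls (Subgroup.zpowers g) (Quotient.out C) = C := fun C => Quotient.out_eq C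
  have hmem : ∀ C ∈ univ.filter (fun C : orbitRel.Quotient (Subgroup.zpowers g) X =>
      sz (Subgroup.zpowers g) C = l), σ (Quotient.out C) ≠ Quotient.out C ∧
      (univ.filter (fun y => σ.SameCycle (Quotient.out C) y)).card = l := by
    intro C hC
    rw [mem_filter] at hC
    have h1 := hszc (Quotient.out C)
    rw [hout, hC.2] at h1
    refine ⟨fun h2 => ?_, h1.symm⟩
    rw [hfix _ h2] at h1
    omega
  apply Finset.card_bij (fun C _ => σ.cycleOf (Quotient.out C))
  · intro C hC
    obtain ⟨h1, h2⟩ := hmem C hC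
    rw [mem_filter]
    refine ⟨?_, ?_⟩
    · rw [Equiv.Perm.cycleOf_mem_cycleFactorsFinset_iff, Equiv.Perm.mem_support]
      exact h1
    · show l = (σ.cycleOf (Quotient.out C)).support.card
      rw [hsupp _ h1, h2]
  · intro C hC C' hC' h
    obtain ⟨h1, h2⟩ := hmem C hC
    obtain ⟨h1', h2'⟩ := hmem C' hC'
    have h3 : (σ.cycleOf (Quotient.out C)).support = (σ.cycleOf (Quotient.out C')).support :=
      congrArg Equiv.Perm.support h
    rw [hsupp _ h1, hsupp _ h1'] at h3
    have h4 : Quotient.out C' ∈ univ.filter (fun y => σ.SameCycle (Quotient.out C') y) := by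
      rw [mem_filter]
      exact ⟨mem_univ _, Equiv.Perm.SameCycle.refl _ _⟩
    rw [← h3, mem_filter] at h4
    have h5 := (hsc _ _).1 h4.2
    rw [hout, hout] at h5
    exact h5.symm
  · intro c hc
    rw [mem_filter] at hc
    obtain ⟨hc1, hc2⟩ := hc
    obtain ⟨hcyc, hcx⟩ := Equiv.Perm.mem_cycleFactorsFinset_iff.1 hc1
    obtain ⟨x, hx, hxy⟩ := hcyc
    have hxs : x ∈ c.support := Equiv.Perm.mem_support.2 hx
    have hcx' : c = σ.cycleOf x := Equiv.Perm.cycle_is_cycleOf hxs hc1
    have hsx : σ x ≠ x := by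
      rw [← hcx x hxs]
      exact hx
    have hsame : σ.SameCycle x (Quotient.out (cls (Subgroup.zpowers g) x)) := by
      rw [hsc, hout]
    refine ⟨cls (Subgroup.zpowers g) x, ?_, ?_⟩
    · rw [mem_filter]
      refine ⟨mem_univ _, ?_⟩
      rw [hszc x, ← hsupp x hsx, ← hcx']
      exact hc2.symm
    · show σ.cycleOf _ = c
      rw [hcx', hsame.cycleOf_eq]

theorem lift {v : ℕ} {B : Fin v → Finset (Fin v)} (hinj : Function.Injective B)
    {h : Equiv.Perm (Fin v)} (haut : ∀ i, ∃ j, (B i).image h = B j) :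
    ∃ g : pairs B ⊤, g.1.1 = h := by
  choose τ hτ using haut
  have hτi : Function.Injective τ := by
    intro i j hij
    apply hinj
    have h1 := hτ i
    rw [hij, ← hτ j] at h1
    exact Finset.image_injective h.injective h1
  let τe : Equiv.Perm (Fin v) := Equiv.ofBijective τ (Finite.injective_iff_bijective.1 hτi)
  refine ⟨⟨(h, τe), Subgroup.mem_top _, ?_⟩, rfl⟩
  intro z i
  show h z ∈ B (τ i) ↔ z ∈ B i
  rw [← hτ i, Finset.mem_image]
  constructor
  · rintro ⟨w, hw, hwz⟩
    rwa [← h.injective hwz]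
  · intro hz
    exact ⟨z, hz, rfl⟩

open Classical in
theorem main {v k lam : ℕ} {B : Fin v → Finset (Fin v)} (hv : 2 ≤ v) (hlam : 1 ≤ lam)
    (hkv : k < v) (hk : ∀ i, (B i).card = k)
    (hp : ∀ x y : Fin v, x ≠ y →
      (Finset.univ.filter (fun i => x ∈ B i ∧ y ∈ B i)).card = lam)
    {σ ρ : Equiv.Perm (Fin v)} (hσ : ∀ i, ∃ j, (B i).image σ = B j)
    (hρ : ∀ i, ∃ j, (B i).image ρ = B j) {p j : ℕ} (hpp : p.Prime)
    (hn : Odd ((k - lam).factorization p)) (hps : ¬ p ∣ orderOf σ)
    (hc : ρ⁻¹ * σ ^ p ^ j * ρ = σ⁻¹) :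
    Odd (univ.filter (fun x => σ x = x)).card ∧ ∀ l, Even (σ.cycleType.count l) := by
  have hinj := blocks_inj hv hlam hkv hk hp
  have D := Pool.Agent.TH905.PC.des_blk hv hlam hkv hk hp
  obtain ⟨g, hg⟩ := lift hinj hσ
  obtain ⟨h, hh⟩ := lift hinj hρ
  have hfst : ∀ a b : pairs B ⊤, a.1.1 = b.1.1 → a = b := fun a b hab =>
    proj_inj hinj ⊤ (Subtype.ext hab)
  have hord : orderOf g = orderOf σ := by
    have h1 : Function.Injective (((MonoidHom.fst _ _).comp (pairs B ⊤).subtype :
      pairs B ⊤ →* Equiv.Perm (Fin v))) := fun a b hab => hfst a b hab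
    rw [← orderOf_injective _ h1 g]
    congr 1
  have hcg : h⁻¹ * g ^ p ^ j * h = g⁻¹ := by
    apply hfst
    show h.1.1⁻¹ * (g.1 ^ p ^ j).1 * h.1.1 = g.1.1⁻¹
    rw [Prod.pow_fst, hg, hh, hc]
  have hpg : ¬ p ∣ orderOf g := by rw [hord]; exact hps
  have hg0 : 0 < orderOf g := orderOf_pos g
  have hn0 : k - lam ≠ 0 := D.npos.ne'
  have hinc : ∀ (g : pairs B ⊤) (x : Fin v) (b : Blk v),
      (fun (x : Fin v) (b : Blk v) => x ∈ B b.i) (g • x) (g • b) ↔
      (fun (x : Fin v) (b : Blk v) => x ∈ B b.i) x b := fun g x b => g.2.2 x b.i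
  have hev : ∀ e : ℕ, e ≠ 1 → e ∣ orderOf g → Even (Fintype.card (EC g e (Fin v))) :=
    fun e he heg => even_EC hinc D hpp hpg hcg hn (Nat.not_dvd_ordCompl hpp hn0)
      (Nat.ordProj_mul_ordCompl_eq_self _ p).symm he heg
  have hσg : ∀ x, σ x = g • x := fun x => by rw [← hg]; rfl
  constructor
  · have h1 := fix_par (X := Fin v) g hg0 hev
    rw [Fintype.card_fin] at h1
    have hodd : Odd v := by
      by_contra hev'
      rw [Nat.not_odd_iff_even] at hev'
      obtain ⟨r, hr⟩ := Pool.Agent.H634R3.WG.Lam.schutz_design hv hlam hkv hk hp hev'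
      have hr0 : r ≠ 0 := by
        rintro rfl
        exact hn0 hr
      rw [hr, Nat.factorization_mul hr0 hr0] at hn
      simp only [Finsupp.coe_add, Pi.add_apply] at hn
      rw [← Nat.not_even_iff_odd] at hn
      exact hn ⟨_, rfl⟩
    have h2 := h1.2 hodd
    simp only [hσg]
    convert h2
  · intro l
    by_cases hl : 2 ≤ l
    · rw [count_eq g σ hσg hl]
      exact even_sz g hg0 hev (orderOf g) l (by omega) (by omega)
    · have h1 : σ.cycleType.count l = 0 := by
        rw [Multiset.count_eq_zero]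
        intro h2
        exact hl (Equiv.Perm.two_le_of_mem_cycleType h2)
      rw [h1]
      exact Even.zero

end Pool.Agent.TH56.RD
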